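import Pool.Agent.H369R3.GeoMain

set_option autoImplicit false

open Complex Metric Set Pool.Agent.Helper506.Means

namespace Pool.Agent.Results.MP_f04b5a_an.GeometricMean

theorem valence_eq_top {h : ℂ → ℂ} {w : ℂ}
    (hw : {z : ℂ | z ∈ ball (0 : ℂ) 1 ∧ h z = w}.Infinite) : valence h = ⊤ := by
  rw [eq_top_iff, ← hw.encard_eq]
  exact le_iSup (fun w : ℂ => {z : ℂ | z ∈ ball (0 : ℂ) 1 ∧ h z = w}.encard) w

/-- For every weight `α` in `(0,1)`, and so for every `α` in `(0, 1/(1+e^π)]`, there are two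
functions of the class `S` whose geometric mean `z exp (α L_f + (1-α) L_g)` has infinite
valence. -/
theorem result : ∀ α : ℝ, 0 < α → α < 1 → ∃ f g Lf Lg : ℂ → ℂ, ClassS f ∧ ClassS g ∧
    IsLogBranch f Lf ∧ IsLogBranch g Lg ∧
    valence (fun z => z * exp ((α : ℂ) * Lf z + (1 - (α : ℂ)) * Lg z)) = ⊤ := by
  intro α h0 h1
  have hβ : 0 < 1 - α := by linarith
  rcases le_total α (1 - α) with h | h
  · have hq1 : α / (1 - α) ≤ 1 := (div_le_one hβ).mpr h
    have hq0 : 0 < α / (1 - α) := by positivity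
    have hf := Pool.Agent.H369R3.Geo.classS_one (e := (α / (1 - α)) ^ 2) (by positivity)
      (by nlinarith)
    have hg := Pool.Agent.H369R3.Geo.classS_two
    obtain ⟨Lf, hLf⟩ := Pool.Agent.H369R3.Geo.exists_logBranch hf
    obtain ⟨Lg, hLg⟩ := Pool.Agent.H369R3.Geo.exists_logBranch hg
    obtain ⟨w, hw⟩ := Pool.Agent.H369R3.Geo.geo_main h0 h (by ring) hLf hLg
    refine ⟨_, _, Lf, Lg, hf, hg, hLf, hLg, valence_eq_top (w := w) ?_⟩
    push_cast at hw ⊢
    exact hw
  · have hq1 : (1 - α) / α ≤ 1 := (div_le_one h0).mpr h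
    have hq0 : 0 < (1 - α) / α := by positivity
    have hg := Pool.Agent.H369R3.Geo.classS_one (e := ((1 - α) / α) ^ 2) (by positivity)
      (by nlinarith)
    have hf := Pool.Agent.H369R3.Geo.classS_two
    obtain ⟨Lf, hLf⟩ := Pool.Agent.H369R3.Geo.exists_logBranch hf
    obtain ⟨Lg, hLg⟩ := Pool.Agent.H369R3.Geo.exists_logBranch hg
    obtain ⟨w, hw⟩ := Pool.Agent.H369R3.Geo.geo_main hβ h (by ring) hLg hLf
    refine ⟨_, _, Lf, Lg, hf, hg, hLf, hLg, valence_eq_top (w := w) ?_⟩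
    push_cast at hw ⊢
    convert hw using 6
    ring

end Pool.Agent.Results.MP_f04b5a_an.GeometricMean
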